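import Pool.Agent.H11_Height.Main

/-!
# MP_b384de_nt, Q1: `p ∣ B(p q^b)` for all primes `p < q` and all `b ≥ 1`

`height f` is the largest absolute value of a coefficient of `f : ℤ[X]`, `heights n` the set of the
heights of the divisors of `X ^ n - 1` in `ℤ[X]`, and `B n` its largest element (that `B n` is the
maximum of `heights n` is part of the theorem).

Proof.  Let `F = ∏_{d ∈ S} Φ_d` be a divisor of `X^{pq^b} - 1`.  The indices `d` divisible by `q²`
contribute a polynomial in `X^q`, say `g(X^q)`, because `Φ_{q² e}(X) = Φ_{q e}(X^q)`.  The other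
factors form one of the sixteen products of `Φ_1, Φ_p, Φ_q, Φ_{pq}`, and in each of these the sum of
the absolute values of the coefficients in any residue class modulo `q` is at most `p`.  Hence
`H(F) ≤ p · H(g)`.  Equality holds when the small part is `Φ_p Φ_q`, whose only coefficient in the
class of `-1` is `p`.  So `B(p q^b) = p · H(g)` for the best `g`.
-/

namespace Pool.Agent.Results.MP_b384de_nt.DividesMaxHeight

open Polynomial Pool.Agent.H11_Height

/-- The definition of the height, restated. -/
example (f : ℤ[X]) : height f = f.support.sup fun i => (f.coeff i).natAbs := rfl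

/-- The definition of the set of heights, restated. -/
example (n : ℕ) : heights n = {h | ∃ f : ℤ[X], f ∣ X ^ n - 1 ∧ height f = h} := rfl

/-- The definition of `B`, restated. -/
example (n : ℕ) : B n = sSup (heights n) := rfl

/-- For all primes `p < q` and every `b ≥ 1`: `B(p q^b)` is the maximal height of a divisor of
`X^{p q^b} - 1` in `ℤ[X]`, and it is divisible by `p`. -/
theorem result : ∀ p q b : ℕ, p.Prime → q.Prime → p < q → 1 ≤ b →
    IsGreatest {h : ℕ | ∃ f : ℤ[X], f ∣ X ^ (p * q ^ b) - 1 ∧
      h = f.support.sup fun i => (f.coeff i).natAbs} (B (p * q ^ b)) ∧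
    p ∣ B (p * q ^ b) := by
  intro p q b hp hq hpq hb
  refine ⟨?_, dvd_B hp hq hpq hb⟩
  have h := isGreatest_B (Nat.mul_pos hp.pos (pow_pos hq.pos b))
  have e : {h : ℕ | ∃ f : ℤ[X], f ∣ X ^ (p * q ^ b) - 1 ∧
      h = f.support.sup fun i => (f.coeff i).natAbs} = heights (p * q ^ b) := by
    ext h
    constructor
    · rintro ⟨f, hf, rfl⟩
      exact ⟨f, hf, rfl⟩
    · rintro ⟨f, hf, rfl⟩
      exact ⟨f, hf, rfl⟩
  rw [e]; exact h

end Pool.Agent.Results.MP_b384de_nt.DividesMaxHeight
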